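import Pool.Agent.Helper84.FX.StT

set_option autoImplicit false

namespace Pool.Agent.Helper10.FX

open Set Pool.Agent.Helper84.FX

namespace BHF

theorem cb_closed (n : ℕ) : IsClosed (Cb n) := by
  have : Cb n = ⋂ i, {u : Fin n → ℝ | 0 ≤ u i ∧ u i ≤ 1} := by
    ext u
    simp [Cb]
  rw [this]
  exact isClosed_iInter fun i => (isClosed_le continuous_const (continuous_apply i)).inter
    (isClosed_le (continuous_apply i) continuous_const)

theorem bd_closed (n : ℕ) : IsClosed (Bd n) := by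
  have : Bd n = Cb n ∩ ⋃ i, {u : Fin n → ℝ | u i = 0 ∨ u i = 1} := by
    ext u
    simp [Bd]
  rw [this]
  refine (cb_closed n).inter (isClosed_iUnion_of_finite fun i => ?_)
  exact (isClosed_eq (continuous_apply i) continuous_const).union
    (isClosed_eq (continuous_apply i) continuous_const)

theorem mem_cb_succ {n : ℕ} (v : Fin (n + 1) → ℝ) :
    v ∈ Cb (n + 1) ↔ v 0 ∈ II ∧ Fin.tail v ∈ Cb n := by
  simp only [Cb, mem_ofPred_eq, Fin.forall_fin_succ, Fin.tail, mem_Icc]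

theorem mem_bd_succ {n : ℕ} (v : Fin (n + 1) → ℝ) :
    v ∈ Bd (n + 1) ↔ v ∈ Cb (n + 1) ∧ ((v 0 = 0 ∨ v 0 = 1) ∨ Fin.tail v ∈ Bd n) := by
  constructor
  · rintro ⟨h1, i, hi⟩
    refine ⟨h1, ?_⟩
    revert hi
    refine Fin.cases (fun h => Or.inl h) (fun j h => Or.inr ?_) i
    exact ⟨((mem_cb_succ v).1 h1).2, j, h⟩
  · rintro ⟨h1, h2 | ⟨-, j, hj⟩⟩
    · exact ⟨h1, 0, h2⟩
    · exact ⟨h1, j.succ, hj⟩

theorem cont_tail (n : ℕ) : Continuous (fun v : Fin (n + 1) → ℝ => Fin.tail v) :=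
  continuous_pi fun i => continuous_apply i.succ

end BHF

open BHF in
theorem hBHF : StHEP → StBHF := by
  classical
  intro hHEP F _ Y n Φ Q hΦ hQ h0 h1
  obtain ⟨K, hK⟩ : ∃ K : ℝ × (Fin (n + 1) → ℝ) → F, ∀ q, K q =
      if Fin.tail q.2 ∈ Bd n then Q (q.1, q.2 0, Fin.tail q.2) else Φ (q.2 0, Fin.tail q.2) :=
    ⟨_, fun _ => rfl⟩
  have hKA : ∀ (r : ℝ) (v : Fin (n + 1) → ℝ), Fin.tail v ∈ Bd n →
      K (r, v) = Q (r, v 0, Fin.tail v) := fun r v h => by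
    rw [hK]
    simp only [if_pos h]
  have hKB : ∀ r ∈ II, ∀ v : Fin (n + 1) → ℝ, (v 0 = 0 ∨ v 0 = 1) →
      K (r, v) = Φ (v 0, Fin.tail v) := by
    intro r hr v hv
    by_cases h : Fin.tail v ∈ Bd n
    · rw [hKA r v h]
      obtain ⟨g0, g1⟩ := h1 r hr _ h
      rcases hv with hv | hv
      · rw [hv, g0]
      · rw [hv, g1]
    · rw [hK]
      simp only [if_neg h]
  have hb : Mp (Cb (n + 1)) Y (fun v => Φ (v 0, Fin.tail v)) := by
    refine ⟨?_, fun v hv => hΦ.2 ⟨((mem_cb_succ v).1 hv).1, ((mem_cb_succ v).1 hv).2⟩⟩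
    exact hΦ.1.comp ((continuous_apply 0).prodMk (cont_tail n)).continuousOn
      (fun v hv => ⟨((mem_cb_succ v).1 hv).1, ((mem_cb_succ v).1 hv).2⟩)
  have hsplit : II ×ˢ Bd (n + 1) = (II ×ˢ (Cb (n + 1) ∩ {v | Fin.tail v ∈ Bd n})) ∪
      (II ×ˢ (Cb (n + 1) ∩ {v | v 0 = 0 ∨ v 0 = 1})) := by
    ext ⟨r, v⟩
    simp only [mem_prod, mem_union, mem_inter_iff, mem_ofPred_eq, mem_bd_succ]
    tauto
  have hKm : Mp (II ×ˢ Bd (n + 1)) Y K := by
    constructor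
    · rw [hsplit]
      refine ContinuousOn.union_of_isClosed ?_ ?_ ?_ ?_
      · have : ContinuousOn (fun q : ℝ × (Fin (n + 1) → ℝ) => Q (q.1, q.2 0, Fin.tail q.2))
            (II ×ˢ (Cb (n + 1) ∩ {v | Fin.tail v ∈ Bd n})) := by
          refine hQ.1.comp (Continuous.continuousOn ?_) ?_
          · exact continuous_fst.prodMk (((continuous_apply 0).comp continuous_snd).prodMk
              ((cont_tail n).comp continuous_snd))
          · rintro ⟨r, v⟩ ⟨hr, hv1, hv2⟩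
            exact ⟨hr, ((mem_cb_succ v).1 hv1).1, hv2⟩
        refine this.congr ?_
        rintro ⟨r, v⟩ ⟨hr, hv1, hv2⟩
        exact hKA r v hv2
      · have : ContinuousOn (fun q : ℝ × (Fin (n + 1) → ℝ) => Φ (q.2 0, Fin.tail q.2))
            (II ×ˢ (Cb (n + 1) ∩ {v | v 0 = 0 ∨ v 0 = 1})) := by
          refine hb.1.comp continuous_snd.continuousOn ?_
          rintro ⟨r, v⟩ ⟨hr, hv1, hv2⟩
          exact hv1
        refine this.congr ?_
        rintro ⟨r, v⟩ ⟨hr, hv1, hv2⟩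
        exact hKB r hr v hv2
      · exact isClosed_Icc.prod ((cb_closed _).inter ((bd_closed n).preimage (cont_tail n)))
      · refine isClosed_Icc.prod ((cb_closed _).inter ?_)
        exact (isClosed_eq (continuous_apply 0) continuous_const).union
          (isClosed_eq (continuous_apply 0) continuous_const)
    · rintro ⟨r, v⟩ ⟨hr, hv⟩
      obtain ⟨hv1, hv2 | hv2⟩ := (mem_bd_succ v).1 hv
      · rw [hKB r hr v hv2]
        exact hb.2 hv1
      · rw [hKA r v hv2]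
        exact hQ.2 ⟨hr, ((mem_cb_succ v).1 hv1).1, hv2⟩
  obtain ⟨H, hH1, hH2, hH3⟩ := (hHEP F Y (n + 1) (fun v => Φ (v 0, Fin.tail v)) K hb hKm).1 (by
    intro v hv
    obtain ⟨hv1, hv2 | hv2⟩ := (mem_bd_succ v).1 hv
    · exact hKB 0 ⟨le_refl _, zero_le_one⟩ v hv2
    · rw [hKA 0 v hv2]
      exact h0 _ ((mem_cb_succ v).1 hv1).1 _ hv2)
  have hone : (1 : ℝ) ∈ II := ⟨zero_le_one, le_refl _⟩
  have hzero : (0 : ℝ) ∈ II := ⟨le_refl _, zero_le_one⟩
  have hcons : ∀ s ∈ II, ∀ u ∈ Cb n, (Fin.cons s u : Fin (n + 1) → ℝ) ∈ Cb (n + 1) := by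
    intro s hs u hu
    rw [mem_cb_succ]
    exact ⟨by simpa using hs, by simpa using hu⟩
  refine ⟨fun q => H (1, (Fin.cons q.1 q.2 : Fin (n + 1) → ℝ)), ⟨?_, ?_⟩, ?_, ?_⟩
  · refine hH1.1.comp (Continuous.continuousOn ?_) ?_
    · exact continuous_const.prodMk (Continuous.finCons continuous_fst continuous_snd)
    · rintro ⟨s, u⟩ ⟨hs, hu⟩
      exact ⟨hone, hcons s hs u hu⟩
  · rintro ⟨s, u⟩ ⟨hs, hu⟩
    exact hH1.2 ⟨hone, hcons s hs u hu⟩
  · intro u hu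
    have key : ∀ t : ℝ, (t = 0 ∨ t = 1) → t ∈ II →
        H (1, (Fin.cons t u : Fin (n + 1) → ℝ)) = Φ (t, u) := by
      intro t ht htI
      have hbd : (Fin.cons t u : Fin (n + 1) → ℝ) ∈ Bd (n + 1) := by
        rw [mem_bd_succ]
        exact ⟨hcons t htI u hu, Or.inl (by simpa using ht)⟩
      rw [hH3 1 hone _ hbd, hKB 1 hone _ (by simpa using ht)]
      simp
    exact ⟨key 0 (Or.inl rfl) hzero, key 1 (Or.inr rfl) hone⟩
  · intro s hs u hu
    have hbd : (Fin.cons s u : Fin (n + 1) → ℝ) ∈ Bd (n + 1) := by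
      rw [mem_bd_succ]
      exact ⟨hcons s hs u hu.1, Or.inr (by simpa using hu)⟩
    show H (1, (Fin.cons s u : Fin (n + 1) → ℝ)) = Q (1, s, u)
    rw [hH3 1 hone _ hbd, hKA 1 _ (by simpa using hu)]
    simp

end Pool.Agent.Helper10.FX
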