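import Pool.Agent.Helper72.FX.StC1

set_option autoImplicit false

namespace Pool.Agent.Helper10.FX

open Polynomial Pool.Agent.Helper72.FX Pool.Agent.Helper21.FX

namespace CC

theorem pel_ne : (pel s7 q7 : B8) ≠ 0 := by
  intro h
  have h1 : (pel s7 q7 : B8).coeff 1 = 0 := by rw [h, coeff_zero]
  have h2 : (pel s7 q7 : B8).coeff 1 = s7 := by
    unfold pel
    rw [coeff_sub, coeff_C_mul_X, coeff_C]
    simp
  rw [h2] at h1
  exact MvPolynomial.X_ne_zero (R := ℂ) (3 : Fin 7) h1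

/-- the zero function -/
noncomputable def zf : AF B7 (kil (⊥ : Ideal B7)) (ZMod 2) where
  f := fun _ _ _ => 0
  exact' := by
    intros
    simp

theorem pid_bot : pid (⊥ : Ideal B7) s7 q7 = Ideal.span {(pel s7 q7 : B8)} := by
  unfold pid
  rw [Ideal.map_bot, bot_sup_eq]

theorem ck_equiv : Nonempty (Ck (pel s7 q7 : B8) (PolynomialModule B7 B7) ≃ₗ[B8] (B8 ⧸ I8)) := by
  have e : PolynomialModule B7 B7 ≃ₗ[B8] B8 := PolynomialModule.equivPolynomialSelf
  refine ⟨Submodule.Quotient.equiv _ _ e ?_⟩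
  ext y
  rw [Submodule.mem_map]
  constructor
  · rintro ⟨z, ⟨w, rfl⟩, rfl⟩
    show e ((LinearMap.lsmul B8 (PolynomialModule B7 B7) (pel s7 q7)) w) ∈ I8
    rw [LinearMap.lsmul_apply, map_smul, smul_eq_mul, I8, pid_bot]
    exact Ideal.mul_mem_right _ _ (Ideal.subset_span rfl)
  · intro hy
    have hy' : y ∈ Ideal.span {(pel s7 q7 : B8)} := by
      rw [← pid_bot]
      exact hy
    obtain ⟨w, hw⟩ := Ideal.mem_span_singleton.1 hy'
    refine ⟨pel s7 q7 • e.symm w, ⟨e.symm w, rfl⟩, ?_⟩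
    rw [hw]
    show e (pel s7 q7 • e.symm w) = pel s7 q7 * w
    rw [map_smul, e.apply_symm_apply, smul_eq_mul]

theorem kn_sub : Subsingleton (Kn (pel s7 q7 : B8) (PolynomialModule B7 B7)) := by
  have e : PolynomialModule B7 B7 ≃ₗ[B8] B8 := PolynomialModule.equivPolynomialSelf
  have key : ∀ g : PolynomialModule B7 B7, (pel s7 q7 : B8) • g = 0 → g = 0 := by
    intro g hg
    have h1 : e ((pel s7 q7 : B8) • g) = 0 := by rw [hg, map_zero]
    rw [map_smul, smul_eq_mul] at h1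
    rcases mul_eq_zero.1 h1 with h2 | h2
    · exact absurd h2 pel_ne
    · exact e.injective (by rw [h2, map_zero])
  refine ⟨fun a b => Subtype.ext ?_⟩
  rw [key a.1 a.2, key b.1 b.2]

theorem nu_mem {J : Ideal B8} (ha : (C a7 : B8) ∈ J) (hb : (C b7 : B8) ∈ J) :
    (C nu7 : B8) ∈ J := by
  have h : (C nu7 : B8) = (C (2 + t7 * b7)) * C b7 - C a7 * C a7 := by
    rw [← C_mul, ← C_mul, ← C_sub]
    congr 1
    unfold nu7 nu
    ring
  rw [h]
  exact J.sub_mem (J.mul_mem_left _ hb) (J.mul_mem_left _ ha)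

end CC

open CC in
theorem hCC : StCC := by
  intro hPEN hCA hCB hZP hSNK hPMX hPMQ hCKQ
  obtain ⟨χ0, h0, h1⟩ := hCA
  have hle : Ideal.span {(C s7 : B8), C nu7} ≤
      (⊥ : Ideal B7).map C ⊔ Ideal.span {(C s7 : B8), C q7} := by
    have hs : (C s7 : B8) ∈ (⊥ : Ideal B7).map C ⊔ Ideal.span {(C s7 : B8), C q7} :=
      Ideal.mem_sup_right (Ideal.subset_span (by simp))
    have hq : (C q7 : B8) ∈ (⊥ : Ideal B7).map C ⊔ Ideal.span {(C s7 : B8), C q7} :=
      Ideal.mem_sup_right (Ideal.subset_span (by simp))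
    rw [Ideal.span_le]
    rintro x (rfl | hx)
    · exact hs
    · rw [Set.mem_singleton_iff.1 hx]
      have h2 : (C nu7 : B8) = C q7 + C m7 * C s7 := by
        rw [← C_mul, ← C_add, q7]
        congr 1
        ring
      rw [h2]
      exact Ideal.add_mem _ hq (Ideal.mul_mem_left _ _ hs)
  obtain ⟨χA, hi, hii⟩ := hPEN B7 ⊥ s7 q7 (ZMod 2) zf
    (χ0.mono (fun M _ _ h => kil_mono hle h))
    (fun N _ _ hf hk hs => (hCB hZP hSNK hPMX hPMQ hCKQ χ0 h0 N hf hs).symm)
  have hbot : ∀ (M : Type) [AddCommGroup M] [Module B7 M], kil (⊥ : Ideal B7) M := by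
    intro M _ _ x hx y
    rw [Ideal.mem_bot.1 hx, zero_smul]
  have hcl : ∀ (M : Type) [AddCommGroup M] [Module B7 M], Module.Finite B7 M →
      χA.f (Ck (pel s7 q7) (PolynomialModule B7 M)) -
        χA.f (Kn (pel s7 q7) (PolynomialModule B7 M)) = 0 := by
    intro M _ _ hM
    exact hii M hM (hbot M)
  refine ⟨χA, hcl, ?_, ?_⟩
  · have h2 := hcl B7 inferInstance
    have h3 : χA.f (Kn (pel s7 q7 : B8) (PolynomialModule B7 B7)) = 0 := by
      have := kn_sub
      exact AF.of_subsingleton χA (gd_kil _) _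
    obtain ⟨e⟩ := ck_equiv
    have h4 : χA.f (Ck (pel s7 q7 : B8) (PolynomialModule B7 B7)) = χA.f (B8 ⧸ I8) :=
      AF.equiv χA (gd_kil _) e inferInstance (kil_quot I8)
    rw [h3, sub_zero, h4] at h2
    exact h2
  · obtain ⟨J, hJ⟩ : ∃ J : Ideal B8, J = Ideal.span {(C s7 : B8), C a7, C b7} := ⟨_, rfl⟩
    have hsJ : (C s7 : B8) ∈ J := by rw [hJ]; exact Ideal.subset_span (by simp)
    have haJ : (C a7 : B8) ∈ J := by rw [hJ]; exact Ideal.subset_span (by simp)
    have hbJ : (C b7 : B8) ∈ J := by rw [hJ]; exact Ideal.subset_span (by simp)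
    have hIJ : pid (⊥ : Ideal B7) s7 q7 ≤ J := by
      rw [pid_bot, Ideal.span_le, Set.singleton_subset_iff]
      have h2 : (pel s7 q7 : B8) = (X + C m7) * C s7 - C nu7 := by
        have h3 : (C q7 : B8) = C nu7 - C s7 * C m7 := by
          rw [← C_mul, ← C_sub, q7]
        unfold pel
        rw [h3]
        ring
      rw [h2]
      exact J.sub_mem (J.mul_mem_left _ hsJ) (nu_mem haJ hbJ)
    rw [← hJ] at h1 ⊢
    rw [← h1]
    exact hi (B8 ⧸ J) inferInstance (kil_mono hIJ (kil_quot J)) (fun y => kil_quot J _ hsJ y)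

end Pool.Agent.Helper10.FX
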