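import Pool.Agent.Helper21.FX.StF

set_option autoImplicit false

namespace Pool.Agent.Helper10.FX

open Polynomial Pool.Agent.Helper72.FX Pool.Agent.Helper21.FX

namespace NPR

theorem c2 : cpar.coeff 2 = (X : ℂ[X]) := by
  unfold cpar
  rw [coeff_add, coeff_C_mul, coeff_C_mul, coeff_X_pow, coeff_X]
  simp

theorem cdeg_le : cpar.natDegree ≤ 2 := by
  unfold cpar
  refine (natDegree_add_le _ _).trans (max_le ?_ ?_)
  · refine (natDegree_C_mul_le _ _).trans ?_
    rw [natDegree_X]
    norm_num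
  · refine (natDegree_C_mul_le _ _).trans ?_
    rw [natDegree_X_pow]

theorem cdeg : cpar.natDegree = 2 :=
  natDegree_eq_of_le_of_coeff_ne_zero cdeg_le (by rw [c2]; exact X_ne_zero)

theorem clead : cpar.leadingCoeff = (X : ℂ[X]) := by
  unfold leadingCoeff
  rw [cdeg, c2]

theorem cne : cpar ≠ 0 := by
  intro h
  have := cdeg
  rw [h, natDegree_zero] at this
  omega

theorem lne (l m : ℂ[X]) (_ : l ≠ 0) (hm : m ≠ 0) : l ^ 2 - X * m ^ 2 ≠ 0 := by
  intro h
  have h1 : l ^ 2 = X * m ^ 2 := sub_eq_zero.1 h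
  have h2 : (l ^ 2).natDegree = (X * m ^ 2).natDegree := by rw [h1]
  rw [natDegree_pow, natDegree_mul X_ne_zero (pow_ne_zero _ hm), natDegree_X, natDegree_pow] at h2
  omega

end NPR

open NPR in
theorem hNPR : StNPR := by
  intro p q h
  by_cases hq : q = 0
  · have hp : p ≠ 0 := by
      rcases h with h | h
      · exact h
      · exact absurd hq h
    rw [hq]
    have e : p ^ 2 - cpar * 0 ^ 2 = p ^ 2 := by ring
    rw [e, natDegree_pow]
    exact ⟨pow_ne_zero _ hp, even_two_mul _⟩
  have hcq : cpar * q ^ 2 ≠ 0 := mul_ne_zero cne (pow_ne_zero _ hq)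
  have dcq : (cpar * q ^ 2).natDegree = 2 + 2 * q.natDegree := by
    rw [natDegree_mul cne (pow_ne_zero _ hq), cdeg, natDegree_pow]
  by_cases hp : p = 0
  · have e : p ^ 2 - cpar * q ^ 2 = -(cpar * q ^ 2) := by rw [hp]; ring
    rw [e, natDegree_neg, dcq]
    refine ⟨neg_ne_zero.2 hcq, ⟨1 + q.natDegree, by ring⟩⟩
  have dp : (p ^ 2).natDegree = 2 * p.natDegree := natDegree_pow _ _
  have hp2 : p ^ 2 ≠ 0 := pow_ne_zero _ hp
  rcases lt_trichotomy (p ^ 2).natDegree (cpar * q ^ 2).natDegree with hlt | heq | hgt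
  · constructor
    · intro h0
      rw [sub_eq_zero.1 h0] at hlt
      exact lt_irrefl _ hlt
    · rw [natDegree_sub_eq_right_of_natDegree_lt hlt, dcq]
      exact ⟨1 + q.natDegree, by ring⟩
  · have hc : (p ^ 2 - cpar * q ^ 2).coeff (p ^ 2).natDegree ≠ 0 := by
      rw [coeff_sub]
      have e1 : (p ^ 2).coeff (p ^ 2).natDegree = p.leadingCoeff ^ 2 := by
        rw [coeff_natDegree, leadingCoeff_pow]
      have e2 : (cpar * q ^ 2).coeff (p ^ 2).natDegree = X * q.leadingCoeff ^ 2 := by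
        rw [heq, coeff_natDegree, leadingCoeff_mul, leadingCoeff_pow, clead]
      rw [e1, e2]
      exact lne _ _ (leadingCoeff_ne_zero.2 hp) (leadingCoeff_ne_zero.2 hq)
    constructor
    · intro h0
      rw [h0, coeff_zero] at hc
      exact hc rfl
    · have hle : (p ^ 2 - cpar * q ^ 2).natDegree ≤ (p ^ 2).natDegree :=
        (natDegree_sub_le _ _).trans (max_le le_rfl heq.ge)
      rw [natDegree_eq_of_le_of_coeff_ne_zero hle hc, dp]
      exact even_two_mul _
  · constructor
    · intro h0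
      rw [sub_eq_zero.1 h0] at hgt
      exact lt_irrefl _ hgt
    · rw [natDegree_sub_eq_left_of_natDegree_lt hgt, dp]
      exact even_two_mul _

end Pool.Agent.Helper10.FX
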