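import Pool.Agent.Helper72.FX.StK

set_option autoImplicit false

namespace Pool.Agent.Helper10.FX

open Polynomial Pool.Agent.Helper72.FX

theorem hNPZ : StNPZ := by
  intro A _ hZZ hNP
  obtain ⟨Λ, _, χ, hA, N, _, _, hfin, hne⟩ := hNP
  have hbot : ∀ (M : Type) [AddCommGroup M] [Module A M], kil (⊥ : Ideal A) M := by
    intro M _ _ x hx y
    rw [Ideal.mem_bot.1 hx, zero_smul]
  apply hne
  refine hZZ Λ χ ?_ ?_ N hfin (hbot N)
  · intro M _ _ _ _ h
    have : Subsingleton M := ⟨fun a b => by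
      have ha := h a
      have hb := h b
      rw [one_smul] at ha hb
      rw [ha, hb]⟩
    exact AF.of_subsingleton χ (gd_kil _) M
  · have e : (A ⧸ (⊥ : Ideal A)) ≃ₗ[A] A := Submodule.quotEquivOfEqBot (⊥ : Submodule A A) rfl
    rw [AF.equiv χ (gd_kil _) e inferInstance (hbot A), hA]

end Pool.Agent.Helper10.FX
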