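import Pool.Agent.Helper9.FX.StP

set_option autoImplicit false

namespace Pool.Agent.Helper10.FX

open Set Complex
open Pool.Agent.Helper9.FX
open Pool.Agent.Helper84.FX (Mp WE Htp II)
open Pool.Agent.Helper72.FX (nu)

namespace PZV

theorem nk_ne (r : ℝ) : nk 0 (r : ℂ) ≠ 0 := by
  have h : nk 0 (r : ℂ) = ((1 + 2 * r ^ 2 * (1 - r) ^ 2 : ℝ) : ℂ) := by
    unfold nk
    push_cast
    ring
  rw [h]
  have h1 : (0 : ℝ) < 1 + 2 * r ^ 2 * (1 - r) ^ 2 := by positivity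
  exact_mod_cast h1.ne'

theorem nk_eq (u : ℂ) : nk 0 u = al u ^ 2 + be u ^ 2 := by
  unfold nk al be
  ring

theorem al_ne {r : ℝ} (h0 : 0 < r) (h1 : r < 1) : al (r : ℂ) ≠ 0 := by
  have h : (1 - r ^ 2 : ℝ) ≠ 0 := by nlinarith
  unfold al
  exact_mod_cast h

theorem be_ne {r : ℝ} (h0 : 0 < r) (h1 : r < 1) : be (r : ℂ) ≠ 0 := by
  have h : (2 * r - r ^ 2 : ℝ) ≠ 0 := by nlinarith
  unfold be
  exact_mod_cast h

theorem mid (q : EP) (h0 : 0 < q.2.2.2) (h1 : q.2.2.2 < 1) : Ph2 q =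
    (q.2.2.1,
      (-2 * al q.2.2.2 ^ 2 - 2 * I * al q.2.2.2 * be q.2.2.2 * (1 + q.2.2.1 * q.2.1)) /
        (nk 0 q.2.2.2 * q.2.2.1),
      (2 * al q.2.2.2 ^ 2 - 2 * I * al q.2.2.2 * be q.2.2.2 * (1 + q.2.2.1 * q.2.1)) /
        (nk 0 q.2.2.2 * q.2.2.1),
      -2 * I * al q.2.2.2 * be q.2.2.2 * q.1 / nk 0 q.2.2.2) := by
  unfold Ph2
  rw [if_neg (not_le.2 h0), if_pos h1]

theorem lo (q : EP) (h0 : q.2.2.2 ≤ 0) : Ph2 q = (q.2.2.1, -2 / q.2.2.1, 2 / q.2.2.1, 0) := by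
  unfold Ph2
  rw [if_pos h0]

theorem hi (q : EP) (h0 : 1 ≤ q.2.2.2) : Ph2 q = (q.2.2.1, 0, 0, 0) := by
  unfold Ph2
  rw [if_neg (by linarith), if_neg (by linarith)]

theorem fst_eq (q : EP) : (Ph2 q).1 = q.2.2.1 := by
  unfold Ph2
  split_ifs <;> rfl

theorem dd_mid (q : EP) (h0 : 0 < q.2.2.2) (h1 : q.2.2.2 < 1) (ht : q.2.2.1 ≠ 0) :
    dd (Ph2 q) = -4 * al q.2.2.2 ^ 2 / (nk 0 q.2.2.2 * q.2.2.1) := by
  have hN := nk_ne q.2.2.2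
  rw [mid q h0 h1]
  unfold dd
  simp only
  field_simp
  ring

theorem dd4_mid (q : EP) (h0 : 0 < q.2.2.2) (h1 : q.2.2.2 < 1) (ht : q.2.2.1 ≠ 0) :
    dd (Ph2 q) + 4 / q.2.2.1 = 4 * be q.2.2.2 ^ 2 / (nk 0 q.2.2.2 * q.2.2.1) := by
  have hN := nk_ne q.2.2.2
  rw [dd_mid q h0 h1 ht]
  field_simp
  rw [nk_eq]
  ring

theorem pp_mid (q : EP) (h0 : 0 < q.2.2.2) (h1 : q.2.2.2 < 1) (w : ℂ) (hw : w ^ 2 = q.2.2.1)
    (hw0 : w ≠ 0) :
    pp w (Ph2 q) = -4 * I * al q.2.2.2 * be q.2.2.2 * (1 + q.2.2.1 * q.2.1 + w * q.1) /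
      (nk 0 q.2.2.2 * q.2.2.1) := by
  have hN := nk_ne q.2.2.2
  rw [mid q h0 h1]
  unfold pp
  simp only
  rw [← hw]
  field_simp
  ring

theorem rr_mid (q : EP) (h0 : 0 < q.2.2.2) (h1 : q.2.2.2 < 1) (w : ℂ) (hw : w ^ 2 = q.2.2.1)
    (hw0 : w ≠ 0) :
    rr w (Ph2 q) = -4 * I * al q.2.2.2 * be q.2.2.2 * (1 + q.2.2.1 * q.2.1 - w * q.1) /
      (nk 0 q.2.2.2 * q.2.2.1) := by
  have hN := nk_ne q.2.2.2
  rw [mid q h0 h1]
  unfold rr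
  simp only
  rw [← hw]
  field_simp
  ring

end PZV

open PZV in
theorem hPZV : StPZV := by
  intro U s hs
  obtain ⟨-, -, hsq⟩ := hs
  refine ⟨fst_eq, ?_, ?_, ?_⟩
  · rintro q ⟨⟨hqU, hq0, hq1, hqn⟩, hqR⟩
    have hqR' : q.2.2.2 < 1 := hqR
    obtain ⟨-, ht⟩ := hsq _ hqU
    refine ⟨by rw [fst_eq]; exact hqU, Or.inl ?_⟩
    rcases le_or_gt q.2.2.2 0 with h | h
    · rw [lo q h]
      unfold dd
      simp only
      have : -2 / q.2.2.1 - 2 / q.2.2.1 = -4 / q.2.2.1 := by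
        field_simp
        norm_num
      rw [this]
      exact div_ne_zero (by norm_num) ht
    · rw [dd_mid q h hqR' ht]
      exact div_ne_zero (mul_ne_zero (by norm_num) (pow_ne_zero _ (al_ne h hqR')))
        (mul_ne_zero (nk_ne _) ht)
  · rintro q ⟨⟨hqU, hq0, hq1, hqn⟩, hqR⟩
    have hqR' : 0 < q.2.2.2 := hqR
    obtain ⟨-, ht⟩ := hsq _ hqU
    refine ⟨by rw [fst_eq]; exact hqU, Or.inr ?_⟩
    rw [fst_eq]
    rcases lt_or_ge q.2.2.2 1 with h | h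
    · rw [dd4_mid q hqR' h ht]
      exact div_ne_zero (mul_ne_zero (by norm_num) (pow_ne_zero _ (be_ne hqR' h)))
        (mul_ne_zero (nk_ne _) ht)
    · rw [hi q h]
      unfold dd
      simp only
      rw [sub_zero, zero_add]
      exact div_ne_zero (by norm_num) ht
  · rintro q ⟨⟨hqU, hq0, hq1, hqn⟩, hqR1, hqR2⟩
    have h1 : q.2.2.2 < 1 := hqR1
    have h0 : 0 < q.2.2.2 := hqR2
    obtain ⟨hw, ht⟩ := hsq _ hqU
    have hw0 : s q.2.2.1 ≠ 0 := by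
      intro h
      rw [h] at hw
      exact ht (by rw [← hw]; norm_num)
    have hnu := hqn h0 h1
    have hal := al_ne h0 h1
    have hN := nk_ne q.2.2.2
    have hd := dd_mid q h0 h1 ht
    have hd4 := dd4_mid q h0 h1 ht
    have hp := pp_mid q h0 h1 _ hw hw0
    have hr := rr_mid q h0 h1 _ hw hw0
    have hlam : (1 + q.2.2.1 * q.2.1 + s q.2.2.1 * q.1) *
        (1 + q.2.2.1 * q.2.1 - s q.2.2.1 * q.1) = 1 := by
      have h3 : nu q.1 q.2.1 q.2.2.1 = 2 * q.2.1 + q.2.2.1 * q.2.1 ^ 2 - q.1 ^ 2 := rfl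
      rw [h3] at hnu
      linear_combination q.2.2.1 * hnu - q.1 ^ 2 * hw
    have e1 : pp (s q.2.2.1) (Ph2 q) = zP s q * dd (Ph2 q) := by
      rw [hp, hd]
      unfold zP
      field_simp
    have e2 : dd (Ph2 q) + 4 / q.2.2.1 = zP s q * rr (s q.2.2.1) (Ph2 q) := by
      rw [hd4, hr]
      unfold zP
      have h4 : I * (be q.2.2.2 / al q.2.2.2) * (1 + q.2.2.1 * q.2.1 + s q.2.2.1 * q.1) *
          (-4 * I * al q.2.2.2 * be q.2.2.2 * (1 + q.2.2.1 * q.2.1 - s q.2.2.1 * q.1) /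
            (nk 0 q.2.2.2 * q.2.2.1)) =
          (-4 * (I * I) * be q.2.2.2 ^ 2 / (nk 0 q.2.2.2 * q.2.2.1)) *
            ((1 + q.2.2.1 * q.2.1 + s q.2.2.1 * q.1) *
            (1 + q.2.2.1 * q.2.1 - s q.2.2.1 * q.1)) := by
        field_simp
      rw [h4, hlam, I_mul_I]
      ring
    have hd0 : dd (Ph2 q) ≠ 0 := by
      rw [hd]
      exact div_ne_zero (mul_ne_zero (by norm_num) (pow_ne_zero _ hal)) (mul_ne_zero hN ht)
    have hden : dd (Ph2 q) * (starRingEnd ℂ) (dd (Ph2 q)) +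
        rr (s q.2.2.1) (Ph2 q) * (starRingEnd ℂ) (rr (s q.2.2.1) (Ph2 q)) ≠ 0 := by
      rw [mul_conj, mul_conj, ← ofReal_add]
      have h5 : 0 < normSq (dd (Ph2 q)) := normSq_pos.2 hd0
      have h6 : 0 ≤ normSq (rr (s q.2.2.1) (Ph2 q)) := normSq_nonneg _
      exact_mod_cast (by linarith : (0 : ℝ) < normSq (dd (Ph2 q)) +
        normSq (rr (s q.2.2.1) (Ph2 q))).ne'
    unfold ze1
    rw [fst_eq, div_eq_iff hden, e2, e1]
    ring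

end Pool.Agent.Helper10.FX
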