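import Pool.Agent.Helper65.FX.St

set_option autoImplicit false

namespace Pool.Agent.Helper10.FX

open Set Topology Metric Filter
open scoped ContDiff Manifold
open Pool.Agent.Helper65.FX Pool.Agent.Helper87.FX

theorem hSMA : StSMA := by
  intro V _ _ _ L f ε hL hf hε
  have hconv : ∀ x : V, Convex ℝ {c : ℂ | x ∈ L → ‖c - f x‖ < ε} := by
    intro x
    by_cases hx : x ∈ L
    · have : {c : ℂ | x ∈ L → ‖c - f x‖ < ε} = ball (f x) ε := by
        ext c
        simp [hx, dist_eq_norm]
      rw [this]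
      exact convex_ball _ _
    · have : {c : ℂ | x ∈ L → ‖c - f x‖ < ε} = univ := by
        ext c
        simp [hx]
      rw [this]
      exact convex_univ
  have hloc : ∀ x : V, ∃ c : ℂ, ∀ᶠ y in 𝓝 x, c ∈ {c : ℂ | y ∈ L → ‖c - f y‖ < ε} := by
    intro x
    by_cases hx : x ∈ L
    · refine ⟨f x, ?_⟩
      have h1 := (hf x hx).eventually (Metric.ball_mem_nhds (f x) hε)
      rw [eventually_nhdsWithin_iff] at h1
      filter_upwards [h1] with y hy hyL
      have h2 := hy hyL
      rwa [dist_comm, dist_eq_norm] at h2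
    · refine ⟨0, ?_⟩
      filter_upwards [hL.isClosed.isOpen_compl.mem_nhds hx] with y hy hyL
      exact absurd hyL hy
  obtain ⟨g, hg⟩ := exists_contMDiffMap_forall_mem_convex_of_local_const (n := (⊤ : ℕ∞)) 𝓘(ℝ, V)
    hconv hloc
  exact ⟨g, g.contMDiff.contDiff, hg⟩

end Pool.Agent.Helper10.FX
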